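import Pool.Agent.Helper36.Alg.Graph
import Pool.Agent.Helper14.PT.E4
import Pool.Agent.Helper50.AL.Solve
import Pool.Agent.Helper25.GA.Match

/-!
# GA-2: the test for sparseness by linear matroid parity
-/

set_option autoImplicit false

namespace Pool.Agent.Helper36.Alg

open Finset Pool.Agent.Helper36.PT
open Pool.Agent.Helper36.Pin (Sparse)

theorem np_spec (N : ℕ) : N < np N ∧ (np N).Prime :=
  Pool.Agent.Helper36.PT.nextPrime_spec N

namespace GA2

theorem linIndep_single_iff {K : Type*} [Field K] {ι : Type*} {D : ℕ} (pos : ι → Fin D)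
    (v : ι → Fin D → K) (hv : ∀ i, v i = Pi.single (pos i) 1) :
    LinearIndependent K v ↔ Function.Injective pos := by
  have hv' : v = fun i => (Pi.single (pos i) 1 : Fin D → K) := funext hv
  constructor
  · intro h x y hxy
    apply h.injective
    rw [hv x, hv y, hxy]
  · intro h
    have h1 := (Pi.basisFun K (Fin D)).linearIndependent.comp pos h
    rw [hv']
    convert h1 using 2
    simp

/-- the end of the edge for line `i` -/
def wv (n : ℕ) (L : List ℕ) (j i : ℕ) : ℕ :=
  if i / 2 % 2 = 0 then mcode L j (i / 4) / n else mcode L j (i / 4) % n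

theorem mcode_mem {L : List ℕ} {j l : ℕ} (hj : j < L.length) : mcode L j l ∈ L := by
  unfold mcode
  split_ifs with h
  · rw [List.getD_eq_getElem _ _ h]
    exact List.getElem_mem h
  · rw [List.getD_eq_getElem _ _ hj]
    exact List.getElem_mem hj

theorem wv_lt {n : ℕ} {L : List ℕ} {j : ℕ} (hj : j < L.length)
    (hc : ∀ k ∈ L, k < n * n ∧ k / n < k % n) (i : ℕ) : wv n L j i < n := by
  have hk := hc _ (mcode_mem (l := i / 4) hj)
  have hn : 0 < n := by
    rcases Nat.eq_zero_or_pos n with h | h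
    · subst h; simp at hk
    · exact h
  unfold wv
  split_ifs
  · exact Nat.div_lt_of_lt_mul hk.1
  · exact Nat.mod_lt _ hn

/-- first position -/
def posA {m n : ℕ} (i : Fin (4 * (m + 3))) : Fin (m + 3 + 2 * n) :=
  ⟨i / 4, by have := i.2; omega⟩

/-- second position -/
def posB {n : ℕ} (m : ℕ) (w : ℕ → ℕ) (hw : ∀ i, w i < n) (i : ℕ) : Fin (m + 3 + 2 * n) :=
  ⟨m + 3 + 2 * w i + i % 2, by
    have := hw i
    have := Nat.mod_lt i (show 0 < 2 by norm_num)
    omega⟩

theorem ind_eq_single {K : Type*} [Field K] {D : ℕ} (x : Fin D) :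
    (fun u : Fin D => ((ind ((u : ℕ) = (x : ℕ)) : ℕ) : K)) = Pi.single x 1 := by
  funext u
  by_cases h : u = x
  · subst h
    rw [ind_pos _ rfl, Pi.single_eq_same]; simp
  · rw [ind_neg _ (fun h' => h (Fin.ext h')), Pi.single_eq_of_ne h]; simp

/-- the matching problem with numbered nodes -/
def Match (n m : ℕ) (code : ℕ → ℕ) : Prop :=
  ∃ g : Fin (m + 3) → Fin n × Fin 2, Function.Injective g ∧
    ∀ l : Fin (m + 3), ((g l).1 : ℕ) = code l / n ∨ ((g l).1 : ℕ) = code l % n

/-- the combined position -/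
def pos {n : ℕ} (m : ℕ) (w : ℕ → ℕ) (hw : ∀ i, w i < n) (x : Fin (4 * (m + 3)) × Fin 2) :
    Fin (m + 3 + 2 * n) :=
  if x.2 = 0 then posA x.1 else posB m w hw x.1

theorem pos_zero {n m : ℕ} (w : ℕ → ℕ) (hw : ∀ i, w i < n) (i : Fin (4 * (m + 3))) :
    pos m w hw (i, 0) = posA i := by simp [pos]

theorem pos_one {n m : ℕ} (w : ℕ → ℕ) (hw : ∀ i, w i < n) (i : Fin (4 * (m + 3))) :
    pos m w hw (i, 1) = posB m w hw i := by simp [pos]

theorem pos_inj_iff {n m : ℕ} (w : ℕ → ℕ) (hw : ∀ i, w i < n) (Z : Finset (Fin (4 * (m + 3)))) :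
    Function.Injective (fun x : Z × Fin 2 => pos m w hw (x.1.1, x.2)) ↔
      (∀ i ∈ Z, ∀ k ∈ Z, (i : ℕ) / 4 = k / 4 → i = k) ∧
      (∀ i ∈ Z, ∀ k ∈ Z, w i = w k → (i : ℕ) % 2 = k % 2 → i = k) := by
  constructor
  · intro h
    constructor
    · intro i hi k hk hik
      have h1 := @h (⟨i, hi⟩, 0) (⟨k, hk⟩, 0) (by
        simp only [pos_zero]
        exact Fin.ext hik)
      simpa using h1
    · intro i hi k hk hik hik2
      have h1 := @h (⟨i, hi⟩, 1) (⟨k, hk⟩, 1) (by
        simp only [pos_one]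
        apply Fin.ext
        simp only [posB]
        rw [hik, hik2])
      simpa using h1
  · rintro ⟨h1, h2⟩ ⟨⟨i, hi⟩, b⟩ ⟨⟨k, hk⟩, c⟩ hx
    simp only at hx
    have hi4 := i.2
    have hk4 := k.2
    have hi2 := Nat.mod_lt (i : ℕ) (show 0 < 2 by norm_num)
    have hk2 := Nat.mod_lt (k : ℕ) (show 0 < 2 by norm_num)
    fin_cases b <;> fin_cases c <;> simp only [Fin.zero_eta, Fin.mk_one, pos_zero, pos_one,
      Fin.isValue] at hx
    · have := congrArg Fin.val hx
      simp only [posA] at this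
      have := h1 i hi k hk this
      subst this
      rfl
    · have := congrArg Fin.val hx
      simp only [posA, posB] at this
      omega
    · have := congrArg Fin.val hx
      simp only [posA, posB] at this
      omega
    · have := congrArg Fin.val hx
      simp only [posB] at this
      have := h2 i hi k hk (by omega) (by omega)
      subst this
      rfl

theorem match_iff {K : Type*} [Field K] {n m : ℕ} (code : ℕ → ℕ)
    (w : ℕ → ℕ) (hw : ∀ i, w i < n)
    (hwc : ∀ i, w i = if i / 2 % 2 = 0 then code (i / 4) / n else code (i / 4) % n)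
    (a b : Fin (4 * (m + 3)) → Fin (m + 3 + 2 * n) → K)
    (ha : ∀ i, a i = Pi.single (posA i) 1) (hb : ∀ i, b i = Pi.single (posB m w hw i) 1) (s : ℕ)
    (hs1 : ∀ Z : Finset (Fin (4 * (m + 3))), LinearIndependent K
      (fun i : Z × Fin 2 => ![a i.1, b i.1] i.2) → 2 * Z.card ≤ s)
    (hs2 : ∃ Z : Finset (Fin (4 * (m + 3))), LinearIndependent K
      (fun i : Z × Fin 2 => ![a i.1, b i.1] i.2) ∧ 2 * Z.card = s) :
    s = 2 * (m + 3) ↔ Match n m code := by
  have hLI : ∀ Z : Finset (Fin (4 * (m + 3))), LinearIndependent K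
      (fun i : Z × Fin 2 => ![a i.1, b i.1] i.2) ↔
      (∀ i ∈ Z, ∀ k ∈ Z, (i : ℕ) / 4 = k / 4 → i = k) ∧
      (∀ i ∈ Z, ∀ k ∈ Z, w i = w k → (i : ℕ) % 2 = k % 2 → i = k) := by
    intro Z
    rw [linIndep_single_iff (fun x : Z × Fin 2 => pos m w hw (x.1.1, x.2)), pos_inj_iff]
    rintro ⟨⟨i, hi⟩, b'⟩
    fin_cases b'
    · simp only [Fin.zero_eta, Fin.isValue, Matrix.cons_val_zero, pos_zero]
      exact ha i
    · simp only [Fin.mk_one, Fin.isValue, Matrix.cons_val_one, pos_one]
      exact hb i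
  have hcard : ∀ Z : Finset (Fin (4 * (m + 3))),
      (∀ i ∈ Z, ∀ k ∈ Z, (i : ℕ) / 4 = k / 4 → i = k) → Z.card ≤ m + 3 := by
    intro Z hZ
    have h1 := Finset.card_le_card_of_injOn (s := Z) (t := Finset.range (m + 3))
      (fun i : Fin (4 * (m + 3)) => (i : ℕ) / 4) (by
        intro i _
        have := i.2
        simp only [Finset.coe_range, Set.mem_Iio]
        omega) (by
        intro i hi k hk hik
        exact hZ i hi k hk hik)
    simpa using h1
  constructor
  · intro h
    obtain ⟨Z, hZ, hZc⟩ := hs2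
    rw [hLI] at hZ
    have hZ3 : Z.card = m + 3 := by omega
    -- the map to left nodes is bijective
    let φ : Z → Fin (m + 3) := fun z => ⟨(z.1 : ℕ) / 4, by have := z.1.2; omega⟩
    have hφ : Function.Injective φ := by
      rintro ⟨i, hi⟩ ⟨k, hk⟩ hik
      have := congrArg Fin.val hik
      exact Subtype.ext (hZ.1 i hi k hk this)
    have hφb : Function.Bijective φ := by
      rw [Fintype.bijective_iff_injective_and_card]
      refine ⟨hφ, ?_⟩
      simp [hZ3]
    let e := Equiv.ofBijective φ hφb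
    have he : ∀ l : Fin (m + 3), (((e.symm l).1 : Fin (4 * (m + 3))) : ℕ) / 4 = l := by
      intro l
      have h1 : φ (e.symm l) = l := e.apply_symm_apply l
      exact congrArg Fin.val h1
    refine ⟨fun l => (⟨w ((e.symm l).1 : Fin (4 * (m + 3))), hw _⟩,
      ⟨((e.symm l).1 : ℕ) % 2, Nat.mod_lt _ (by norm_num)⟩), ?_, ?_⟩
    · intro l l' hll
      simp only [Prod.mk.injEq, Fin.mk.injEq] at hll
      have h1 := hZ.2 _ (e.symm l).2 _ (e.symm l').2 hll.1 hll.2
      exact e.symm.injective (Subtype.ext h1)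
    · intro l
      simp only
      rw [hwc, he l]
      split_ifs
      · exact Or.inl rfl
      · exact Or.inr rfl
  · rintro ⟨g, hg, hgc⟩
    apply le_antisymm
    · obtain ⟨Z, hZ, hZc⟩ := hs2
      rw [hLI] at hZ
      have := hcard Z hZ.1
      omega
    · classical
      let b' : Fin (m + 3) → ℕ := fun l => if ((g l).1 : ℕ) = code l / n then 0 else 1
      have hb' : ∀ l, b' l < 2 := by
        intro l
        simp only [b']
        split_ifs <;> norm_num
      let ln : Fin (m + 3) → Fin (4 * (m + 3)) := fun l =>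
        ⟨4 * (l : ℕ) + 2 * b' l + ((g l).2 : ℕ), by
          have := l.2
          have := hb' l
          have := (g l).2.2
          omega⟩
      have hln4 : ∀ l, ((ln l : Fin (4 * (m + 3))) : ℕ) / 4 = l := by
        intro l
        have := hb' l
        have := (g l).2.2
        simp only [ln]
        omega
      have hln2 : ∀ l, ((ln l : Fin (4 * (m + 3))) : ℕ) % 2 = (g l).2 := by
        intro l
        have := hb' l
        have := (g l).2.2
        simp only [ln]
        omega
      have hlnb : ∀ l, ((ln l : Fin (4 * (m + 3))) : ℕ) / 2 % 2 = b' l := by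
        intro l
        have := hb' l
        have := (g l).2.2
        simp only [ln]
        omega
      have hlnw : ∀ l, w (ln l) = (g l).1 := by
        intro l
        rw [hwc, hln4, hlnb]
        by_cases hc : ((g l).1 : ℕ) = code l / n
        · have : b' l = 0 := by simp only [b']; rw [if_pos hc]
          rw [this, if_pos rfl]
          exact hc.symm
        · have : b' l = 1 := by simp only [b']; rw [if_neg hc]
          rw [this, if_neg (by norm_num)]
          exact ((hgc l).resolve_left hc).symm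
      have hlninj : Function.Injective ln := by
        intro l l' hll
        apply Fin.ext
        rw [← hln4 l, ← hln4 l', hll]
      have h1 := hs1 (Finset.univ.image ln) (by
        rw [hLI]
        constructor
        · intro i hi k hk hik
          obtain ⟨l, -, rfl⟩ := Finset.mem_image.1 hi
          obtain ⟨l', -, rfl⟩ := Finset.mem_image.1 hk
          rw [hln4, hln4] at hik
          rw [Fin.ext hik]
        · intro i hi k hk hik hik2
          obtain ⟨l, -, rfl⟩ := Finset.mem_image.1 hi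
          obtain ⟨l', -, rfl⟩ := Finset.mem_image.1 hk
          rw [hlnw, hlnw] at hik
          rw [hln2, hln2] at hik2
          rw [hg (Prod.ext (Fin.ext hik) (Fin.ext hik2))])
      rw [Finset.card_image_of_injective _ hlninj] at h1
      simpa using h1

/-- the edge with the number `i` -/
def edge {n : ℕ} {L : List ℕ} (hc : ∀ k ∈ L, k < n * n ∧ k / n < k % n) (i : Fin L.length) :
    Sym2 (Fin n) :=
  s(⟨L[(i : ℕ)] / n, Nat.div_lt_of_lt_mul (hc _ (List.getElem_mem i.2)).1⟩,
    ⟨L[(i : ℕ)] % n, Nat.mod_lt _ (by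
      have := (hc _ (List.getElem_mem i.2)).1
      rcases Nat.eq_zero_or_pos n with h | h
      · subst h; simp at this
      · exact h)⟩)

theorem edge_mem {n : ℕ} {L : List ℕ} (hc : ∀ k ∈ L, k < n * n ∧ k / n < k % n)
    (i : Fin L.length) : edge hc i ∈ eset n L := by
  classical
  unfold eset
  rw [Finset.mem_filter]
  refine ⟨Finset.mem_univ _, _, _, ?_, ?_, rfl⟩
  · rw [Fin.lt_def]
    exact (hc _ (List.getElem_mem i.2)).2
  · simp only
    have : L[(i : ℕ)] / n * n + L[(i : ℕ)] % n = L[(i : ℕ)] := Nat.div_add_mod' _ _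
    rw [this]
    exact List.getElem_mem i.2

theorem edge_inj {n : ℕ} {L : List ℕ} (hL : L.Nodup) (hc : ∀ k ∈ L, k < n * n ∧ k / n < k % n) :
    Function.Injective (edge hc) := by
  intro i k h
  unfold edge at h
  have hi := (hc _ (List.getElem_mem i.2)).2
  have hk := (hc _ (List.getElem_mem k.2)).2
  have h1 : L[(i : ℕ)] = L[(k : ℕ)] := by
    rw [← Nat.div_add_mod' L[(i : ℕ)] n, ← Nat.div_add_mod' L[(k : ℕ)] n]
    rcases Sym2.eq_iff.1 h with ⟨h1, h2⟩ | ⟨h1, h2⟩
    · rw [Fin.mk.injEq] at h1 h2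
      rw [h1, h2]
    · rw [Fin.mk.injEq] at h1 h2
      omega
  exact Fin.ext ((hL.getElem_inj_iff).1 h1)

theorem edge_surj {n : ℕ} {L : List ℕ} (hc : ∀ k ∈ L, k < n * n ∧ k / n < k % n)
    {e : Sym2 (Fin n)} (he : e ∈ eset n L) : ∃ i, edge hc i = e := by
  classical
  unfold eset at he
  rw [Finset.mem_filter] at he
  obtain ⟨-, u, v, huv, hm, rfl⟩ := he
  obtain ⟨i, hi, hi2⟩ := List.getElem_of_mem hm
  refine ⟨⟨i, hi⟩, ?_⟩
  have hv := v.2
  have hn : 0 < n := by omega
  have h1 : L[i] / n = u := by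
    rw [hi2, Nat.mul_comm, Nat.mul_add_div hn, Nat.div_eq_of_lt hv]
    simp
  have h2 : L[i] % n = v := by
    rw [hi2, Nat.mul_comm, Nat.mul_add_mod, Nat.mod_eq_of_lt hv]
  unfold edge
  apply Sym2.eq_iff.2
  exact Or.inl ⟨Fin.ext h1, Fin.ext h2⟩

theorem mem_edge_iff {n : ℕ} {L : List ℕ} (hc : ∀ k ∈ L, k < n * n ∧ k / n < k % n)
    (i : Fin L.length) (x : Fin n) :
    x ∈ edge hc i ↔ ((x : ℕ) = L.getD i 0 / n ∨ (x : ℕ) = L.getD i 0 % n) := by
  unfold edge
  rw [Sym2.mem_iff, Fin.ext_iff, Fin.ext_iff]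
  rw [List.getD_eq_getElem _ _ i.2]

/-- the numbering of the edges -/
noncomputable def eqv {n : ℕ} {L : List ℕ} (hL : L.Nodup)
    (hc : ∀ k ∈ L, k < n * n ∧ k / n < k % n) : Fin L.length ≃ (eset n L) :=
  Equiv.ofBijective (fun i => ⟨edge hc i, edge_mem hc i⟩) (by
    constructor
    · intro i k h
      exact edge_inj hL hc (congrArg Subtype.val h)
    · rintro ⟨e, he⟩
      obtain ⟨i, hi⟩ := edge_surj hc he
      exact ⟨i, Subtype.ext hi⟩)

theorem eqv_val {n : ℕ} {L : List ℕ} (hL : L.Nodup)
    (hc : ∀ k ∈ L, k < n * n ∧ k / n < k % n) (i : Fin L.length) :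
    ((eqv hL hc i : eset n L) : Sym2 (Fin n)) = edge hc i := rfl

theorem match_iff_edge {n : ℕ} {L : List ℕ} (hL : L.Nodup)
    (hc : ∀ k ∈ L, k < n * n ∧ k / n < k % n) (j : Fin L.length) :
    (∃ f : eset n L ⊕ Fin 3 → Fin n × Fin 2, Function.Injective f ∧
      (∀ e' : eset n L, (f (Sum.inl e')).1 ∈ e'.1) ∧ ∀ i, (f (Sum.inr i)).1 ∈ edge hc j) ↔
      Match n L.length (mcode L j) := by
  let E : Fin (L.length + 3) ≃ eset n L ⊕ Fin 3 :=
    finSumFinEquiv.symm.trans (Equiv.sumCongr (eqv hL hc) (Equiv.refl _))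
  have hE1 : ∀ i : Fin L.length, E (Fin.castAdd 3 i) = Sum.inl (eqv hL hc i) := by
    intro i
    simp [E]
  have hE2 : ∀ i : Fin 3, E (Fin.natAdd L.length i) = Sum.inr i := by
    intro i
    simp [E]
  have hE1' : ∀ i : Fin L.length, E.symm (Sum.inl (eqv hL hc i)) = Fin.castAdd 3 i := by
    intro i
    rw [← hE1, Equiv.symm_apply_apply]
  have hE2' : ∀ i : Fin 3, E.symm (Sum.inr i) = Fin.natAdd L.length i := by
    intro i
    rw [← hE2, Equiv.symm_apply_apply]
  have hc1 : ∀ i : Fin L.length, mcode L j (Fin.castAdd 3 i : Fin (L.length + 3)) = L.getD i 0 := by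
    intro i
    unfold mcode
    rw [if_pos (by simp)]
    rfl
  have hc2 : ∀ i : Fin 3, mcode L j (Fin.natAdd L.length i : Fin (L.length + 3)) = L.getD j 0 := by
    intro i
    unfold mcode
    rw [if_neg (by simp)]
  constructor
  · rintro ⟨f, hf, hf1, hf2⟩
    refine ⟨fun l => f (E l), hf.comp E.injective, ?_⟩
    intro l
    induction l using Fin.addCases with
    | left i =>
      simp only
      rw [hE1, hc1]
      have := hf1 (eqv hL hc i)
      rw [eqv_val, mem_edge_iff] at this
      exact this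
    | right i =>
      simp only
      rw [hE2, hc2]
      have := hf2 i
      rw [mem_edge_iff] at this
      exact this
  · rintro ⟨g, hg, hgc⟩
    refine ⟨fun x => g (E.symm x), hg.comp E.symm.injective, ?_, ?_⟩
    · intro e'
      obtain ⟨i, rfl⟩ := (eqv hL hc).surjective e'
      simp only
      rw [eqv_val, mem_edge_iff, hE1', ← hc1]
      exact hgc _
    · intro i
      simp only
      rw [mem_edge_iff, hE2', ← hc2]
      exact hgc _

end GA2

open GA2 in
theorem sparseN_iff {n : ℕ} {L : List ℕ} (hL : L.Nodup)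
    (hc : ∀ k ∈ L, k < n * n ∧ k / n < k % n) : sparseN n L ↔ Sparse (eset n L) := by
  classical
  have hdiag : ∀ e ∈ eset n L, ¬ e.IsDiag := by
    intro e he
    unfold eset at he
    rw [Finset.mem_filter] at he
    obtain ⟨-, u, v, huv, hm, rfl⟩ := he
    rw [Sym2.mk_isDiag_iff]
    exact huv.ne
  rw [sparse_iff_match _ hdiag]
  have h1 : ∀ j : Fin L.length,
      (solve (np (2 + 4 * (L.length + 3) + 2 * (4 * (L.length + 3)) ^ 2))
        (L.length + 3 + 2 * n) (4 * (L.length + 3)) mA (mB n L j) = 2 * (L.length + 3) ↔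
        Match n L.length (mcode L j)) := by
    intro j
    have hp := np_spec (2 + 4 * (L.length + 3) + 2 * (4 * (L.length + 3)) ^ 2)
    generalize np (2 + 4 * (L.length + 3) + 2 * (4 * (L.length + 3)) ^ 2) = p at hp
    haveI : Fact p.Prime := ⟨hp.2⟩
    have hw := wv_lt (n := n) j.2 hc
    have ha : ∀ i : Fin (4 * (L.length + 3)),
        vecZ p (L.length + 3 + 2 * n) (4 * (L.length + 3)) mA i = Pi.single (posA i) 1 :=
      fun i => ind_eq_single (K := ZMod p) (posA i)
    have hb : ∀ i : Fin (4 * (L.length + 3)),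
        vecZ p (L.length + 3 + 2 * n) (4 * (L.length + 3)) (mB n L j) i =
          Pi.single (posB L.length (wv n L j) hw i) 1 :=
      fun i => ind_eq_single (K := ZMod p) (posB L.length (wv n L j) hw i)
    have hspec := solve_spec (p := p) (L.length + 3 + 2 * n) (4 * (L.length + 3)) mA (mB n L j)
      hp.1 (by
        intro i s t hst
        rw [ha, hb] at hst
        have hne : (posA i : Fin (L.length + 3 + 2 * n)) ≠ posB L.length (wv n L j) hw i := by
          intro h
          have := congrArg Fin.val h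
          simp only [posA, posB] at this
          have := i.2
          omega
        have e1 := congrFun hst (posA i)
        have e2 := congrFun hst (posB L.length (wv n L j) hw i)
        simp only [Pi.add_apply, Pi.smul_apply, smul_eq_mul, Pi.single_eq_same,
          Pi.single_eq_of_ne hne, Pi.single_eq_of_ne hne.symm, mul_one, mul_zero, add_zero,
          zero_add, Pi.zero_apply] at e1 e2
        exact ⟨e1, e2⟩)
    exact match_iff (K := ZMod p) (mcode L j) (wv n L j) hw (fun i => rfl) _ _ ha hb _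
      hspec.1 hspec.2
  constructor
  · intro h e he
    obtain ⟨j, rfl⟩ := edge_surj hc he
    rw [match_iff_edge hL hc j, ← h1 j]
    exact h j j.2
  · intro h j hj
    have := h _ (edge_mem hc ⟨j, hj⟩)
    rw [match_iff_edge hL hc ⟨j, hj⟩] at this
    exact (h1 ⟨j, hj⟩).2 this

end Pool.Agent.Helper36.Alg
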